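import Pool.Graph.R_seed8.H340R2.LW2

/-!
# Algebraically independent values of the exponential function
-/

set_option autoImplicit false

namespace Pool.Agent.H854.CU

open Polynomial

theorem irreducible_root (M : ℕ) (hM : M ≠ 0) : Irreducible (X ^ M - C 2 : ℚ[X]) := by
  have h1 : (X ^ M - C 2 : ℤ[X]).Monic := monic_X_pow_sub_C 2 hM
  have h2 : Irreducible (X ^ M - C 2 : ℤ[X]) := by
    have hp : (Ideal.span {(2 : ℤ)}).IsPrime := by
      rw [Ideal.span_singleton_prime two_ne_zero]
      exact Int.prime_two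
    have hdeg : (X ^ M - C 2 : ℤ[X]).natDegree = M := natDegree_X_pow_sub_C
    refine Polynomial.IsEisensteinAt.irreducible (𝓟 := Ideal.span {(2 : ℤ)}) ?_ hp h1.isPrimitive
      (by rw [hdeg]; omega)
    refine ⟨?_, ?_, ?_⟩
    · rw [h1.leadingCoeff, Ideal.mem_span_singleton]
      norm_num
    · intro n hn
      rw [hdeg] at hn
      rw [Ideal.mem_span_singleton, coeff_sub, coeff_X_pow, if_neg hn.ne, coeff_C]
      split_ifs
      · norm_num
      · norm_num
    · rw [Ideal.span_singleton_pow, Ideal.mem_span_singleton, coeff_sub, coeff_X_pow,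
        if_neg hM.symm, coeff_C, if_pos rfl]
      norm_num
  have h3 := (h1.irreducible_iff_irreducible_map_fraction_map (K := ℚ)).1 h2
  convert h3 using 1
  rw [Polynomial.map_sub, Polynomial.map_pow, map_X, map_C]
  rfl

/-- the powers of a root of `X ^ M = 2` with exponents less than `M` are linearly independent -/
theorem powers_independent (M : ℕ) (θ : ℂ) (hθ : θ ^ M = 2) {ι : Type} (s : Finset ι)
    (ν : ι → ℕ) (hν : Set.InjOn ν s) (hM : ∀ i ∈ s, ν i < M) (b : ι → ℚ)
    (h : ∑ i ∈ s, (b i : ℂ) * θ ^ ν i = 0) : ∀ i ∈ s, b i = 0 := by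
  classical
  rcases Nat.eq_zero_or_pos M with rfl | hM0
  · intro i hi
    have := hM i hi
    omega
  have hM1 : M ≠ 0 := hM0.ne'
  have hmin : (X ^ M - C 2 : ℚ[X]) = minpoly ℚ θ := by
    refine minpoly.eq_of_irreducible_of_monic (irreducible_root M hM1) ?_
      (monic_X_pow_sub_C 2 hM1)
    simp [hθ]
  let g : ℚ[X] := ∑ i ∈ s, C (b i) * X ^ ν i
  have hg : aeval θ g = 0 := by
    simp only [g, map_sum, map_mul, aeval_C, map_pow, aeval_X]
    rw [← h]
    rfl
  have hdeg : g.degree < (M : WithBot ℕ) := by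
    refine mem_degreeLT.1 (Submodule.sum_mem _ fun i hi => mem_degreeLT.2 ?_)
    refine lt_of_le_of_lt (degree_C_mul_X_pow_le _ _) ?_
    exact_mod_cast hM i hi
  have hg0 : g = 0 := by
    by_contra h1
    have h2 := minpoly.degree_le_of_ne_zero ℚ θ h1 hg
    rw [← hmin, degree_X_pow_sub_C hM0] at h2
    exact absurd hdeg (not_lt.2 h2)
  intro i hi
  have h1 : g.coeff (ν i) = b i := by
    simp only [g, finsetSum_coeff, coeff_C_mul, coeff_X_pow]
    rw [Finset.sum_eq_single i]
    · simp
    · intro j hj hji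
      rw [if_neg (fun h2 => hji (hν hj hi h2.symm)), mul_zero]
    · exact fun h2 => absurd hi h2
  rw [← h1, hg0, coeff_zero]

/-- by the theorem of Lindemann and Weierstrass -/
theorem algebraicIndependent_exp {α : Type} [Fintype α] (M : ℕ) (θ : ℂ) (hθ : θ ^ M = 2)
    (ν : α → ℕ) (hν : Function.Injective ν) (hM : ∀ i, ν i < M) :
    AlgebraicIndependent ℤ (fun i => Complex.exp (θ ^ ν i)) := by
  classical
  rw [algebraicIndependent_iff]
  intro Ψ hΨ
  by_contra hne
  obtain ⟨e, he⟩ := MvPolynomial.support_nonempty.2 hne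
  have halg : IsAlgebraic ℚ θ := by
    rcases Nat.eq_zero_or_pos M with rfl | hM0
    · norm_num at hθ
    · exact ⟨X ^ M - C 2, (monic_X_pow_sub_C 2 hM0.ne').ne_zero, by simp [hθ]⟩
  have h1 : ∑ e ∈ Ψ.support, ((MvPolynomial.coeff e Ψ : ℤ) : ℂ) *
      Complex.exp (∑ i, (e i : ℂ) * θ ^ ν i) = 0 := by
    rw [← hΨ, MvPolynomial.aeval_def, MvPolynomial.eval₂_eq']
    refine Finset.sum_congr rfl fun e _ => ?_
    rw [Complex.exp_sum]
    congr 1
    refine Finset.prod_congr rfl fun i _ => ?_
    rw [← Complex.exp_nat_mul]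
  have h2 := Pool.Agent.H340R2.LW.lindemann_weierstrass Ψ.support
    (fun e => ∑ i, (e i : ℂ) * θ ^ ν i) (fun e => ((MvPolynomial.coeff e Ψ : ℤ) : ℂ))
    (fun e _ => by
      exact (IsIntegral.sum _ fun i _ => (isAlgebraic_natCast _).isIntegral.mul
        (halg.isIntegral.pow _)).isAlgebraic)
    (fun e _ => isAlgebraic_intCast _) (by
      intro a ha b hb hab
      have h3 := powers_independent M θ hθ Finset.univ ν hν.injOn (fun i _ => hM i)
        (fun i => (a i : ℚ) - b i) (by
          have h4 : ∑ i, (a i : ℂ) * θ ^ ν i = ∑ i, (b i : ℂ) * θ ^ ν i := hab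
          push_cast
          simp only [sub_mul, Finset.sum_sub_distrib]
          rw [h4, sub_self])
      ext i
      have h4 := h3 i (Finset.mem_univ i)
      have h5 : (a i : ℚ) = b i := sub_eq_zero.1 h4
      exact_mod_cast h5) h1 e he
  exact (MvPolynomial.mem_support_iff.1 he) (by exact_mod_cast h2)

end Pool.Agent.H854.CU
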