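import Pool.Graph.R_pool_sql_team_seeded_3997aac3.Q26.FO.Law

/-!
# Integral points outside of all hypersurfaces
-/

set_option autoImplicit false

namespace Pool.Agent.H854.CU

open MvPolynomial Filter Pool.Agent.Q26.FO

/-- uniqueness of digits -/
theorem digits_zero {ι : Type} (s : Finset ι) (ν : ι → ℕ) (hν : Set.InjOn ν s) (d : ι → ℤ)
    (N : ℕ) (hd : ∀ i ∈ s, |d i| < N) (h : ∑ i ∈ s, d i * (N : ℤ) ^ ν i = 0) :
    ∀ i ∈ s, d i = 0 := by
  classical
  by_contra hne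
  push Not at hne
  obtain ⟨j, hj, hj0⟩ := hne
  obtain ⟨i, hi, hmin⟩ := Finset.exists_min_image (s.filter fun i => d i ≠ 0) ν
    ⟨j, Finset.mem_filter.2 ⟨hj, hj0⟩⟩
  rw [Finset.mem_filter] at hi
  have hN : (0 : ℤ) < N := lt_of_le_of_lt (abs_nonneg _) (hd i hi.1)
  rw [← Finset.add_sum_erase s _ hi.1] at h
  have h1 : (N : ℤ) ^ (ν i + 1) ∣ ∑ x ∈ s.erase i, d x * (N : ℤ) ^ ν x := by
    refine Finset.dvd_sum fun x hx => ?_
    rw [Finset.mem_erase] at hx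
    by_cases h0 : d x = 0
    · rw [h0, zero_mul]
      exact dvd_zero _
    · have h2 : ν i ≤ ν x := hmin x (Finset.mem_filter.2 ⟨hx.2, h0⟩)
      have h3 : ν i ≠ ν x := fun h4 => hx.1 (hν hx.2 hi.1 h4.symm)
      exact Dvd.dvd.mul_left (pow_dvd_pow _ (lt_of_le_of_ne h2 h3)) _
  have h2 : (N : ℤ) ^ (ν i + 1) ∣ d i * (N : ℤ) ^ ν i := by
    rw [eq_neg_of_add_eq_zero_left h]
    exact (dvd_neg).2 h1
  rw [pow_succ', mul_comm (d i)] at h2
  rw [mul_comm (N : ℤ) ((N : ℤ) ^ ν i)] at h2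
  have h3 : (N : ℤ) ∣ d i := (mul_dvd_mul_iff_left (pow_pos hN _).ne').1 h2
  exact hi.2 (Int.eq_zero_of_abs_lt_dvd h3 (hd i hi.1))

variable {α : Type} [Fintype α]

/-- the point with the coordinates `N ^ N ^ ν i` -/
def pt (ν : α → ℕ) (N : ℕ) : α → ℤ := fun i => (N : ℤ) ^ N ^ ν i

theorem eval_pt (ν : α → ℕ) (N : ℕ) (Ψ : MvPolynomial α ℤ) :
    eval (pt ν N) Ψ = ∑ e ∈ Ψ.support, coeff e Ψ * (N : ℤ) ^ (∑ i, e i * N ^ ν i) := by
  rw [eval_eq']
  refine Finset.sum_congr rfl fun e _ => ?_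
  congr 1
  rw [← Finset.prod_pow_eq_pow_sum]
  refine Finset.prod_congr rfl fun i _ => ?_
  rw [pt, ← pow_mul, mul_comm]

/-- a nonzero integral polynomial does not vanish at almost all points of the sequence -/
theorem eventually_ne_zero (ν : α → ℕ) (hν : Function.Injective ν) (Ψ : MvPolynomial α ℤ)
    (hΨ : Ψ ≠ 0) : ∀ᶠ N in atTop, eval (pt ν N) Ψ ≠ 0 := by
  classical
  have h1 : ∀ᶠ N : ℕ in atTop, ∀ e ∈ Ψ.support, |coeff e Ψ| < N := by
    rw [Filter.eventually_all_finset]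
    intro e _
    filter_upwards [eventually_gt_atTop (coeff e Ψ).natAbs] with N hN
    rw [Int.abs_eq_natAbs]
    exact_mod_cast hN
  have h2 : ∀ᶠ N : ℕ in atTop, ∀ e ∈ Ψ.support, ∀ i, e i < N := by
    rw [Filter.eventually_all_finset]
    intro e _
    rw [Filter.eventually_all]
    intro i
    exact eventually_gt_atTop (e i)
  filter_upwards [h1, h2] with N hN1 hN2 h0
  rw [eval_pt] at h0
  obtain ⟨e, he⟩ := MvPolynomial.support_nonempty.2 hΨ
  refine (mem_support_iff.1 he) (digits_zero _ (fun e : α →₀ ℕ => ∑ i, e i * N ^ ν i) ?_ _ N hN1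
    h0 e he)
  intro a ha b hb hab
  have h3 : ∑ i : α, ((a i : ℤ) - b i) * (N : ℤ) ^ ν i = 0 := by
    have h4 : ((∑ i, a i * N ^ ν i : ℕ) : ℤ) = ((∑ i, b i * N ^ ν i : ℕ) : ℤ) := by
      exact_mod_cast hab
    push_cast at h4
    simp only [sub_mul, Finset.sum_sub_distrib]
    rw [h4, sub_self]
  have h5 := digits_zero Finset.univ ν hν.injOn (fun i => (a i : ℤ) - b i) N (fun i _ => by
    have h6 := hN2 a ha i
    have h7 := hN2 b hb i
    rw [abs_lt]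
    constructor <;> omega) h3
  ext i
  have h6 := h5 i (Finset.mem_univ i)
  omega

/-- the size of the values -/
theorem eventually_lt (ν : α → ℕ) (M : ℕ) (hM : ∀ i, ν i < M) (Ψ : MvPolynomial α ℤ) :
    ∀ᶠ N : ℕ in atTop, |eval (pt ν N) Ψ| < (N : ℤ) ^ N ^ M := by
  classical
  filter_upwards [eventually_gt_atTop (∑ e ∈ Ψ.support, (coeff e Ψ).natAbs),
    eventually_ge_atTop (Ψ.totalDegree + 2)] with N hA hd
  have hN : 0 < N := by omega
  rw [eval_pt]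
  have hM0 : ∀ e ∈ Ψ.support, ∑ i, e i * N ^ ν i ≤ Ψ.totalDegree * N ^ (M - 1) := by
    intro e he
    have h1 : ∑ i, e i ≤ Ψ.totalDegree := by
      have := MvPolynomial.le_totalDegree he
      rwa [Finsupp.sum_fintype _ _ (fun _ => rfl)] at this
    refine le_trans ?_ (Nat.mul_le_mul_right _ h1)
    rw [Finset.sum_mul]
    refine Finset.sum_le_sum fun i _ => Nat.mul_le_mul_left _ (Nat.pow_le_pow_right hN ?_)
    have := hM i
    omega
  have h2 : |∑ e ∈ Ψ.support, coeff e Ψ * (N : ℤ) ^ (∑ i, e i * N ^ ν i)| ≤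
      (∑ e ∈ Ψ.support, ((coeff e Ψ).natAbs : ℤ)) * (N : ℤ) ^ (Ψ.totalDegree * N ^ (M - 1)) := by
    refine (Finset.abs_sum_le_sum_abs _ _).trans ?_
    rw [Finset.sum_mul]
    refine Finset.sum_le_sum fun e he => ?_
    rw [abs_mul, Int.abs_eq_natAbs, abs_of_nonneg (by positivity : (0 : ℤ) ≤
      (N : ℤ) ^ (∑ i, e i * N ^ ν i))]
    refine mul_le_mul_of_nonneg_left ?_ (by positivity)
    exact pow_le_pow_right₀ (by exact_mod_cast hN) (hM0 e he)
  refine lt_of_le_of_lt h2 ?_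
  have h3 : (∑ e ∈ Ψ.support, ((coeff e Ψ).natAbs : ℤ)) < N := by exact_mod_cast hA
  refine lt_of_lt_of_le (mul_lt_mul_of_pos_right h3 (by positivity)) ?_
  rw [← pow_succ']
  refine pow_le_pow_right₀ (by exact_mod_cast hN) ?_
  rcases Nat.eq_zero_or_pos M with rfl | hM1
  · have hα : IsEmpty α := ⟨fun i => by have := hM i; omega⟩
    have h4 : Ψ.totalDegree = 0 := by
      rw [MvPolynomial.eq_C_of_isEmpty Ψ, totalDegree_C]
    simp [h4]
  · obtain ⟨k, rfl⟩ : ∃ k, M = k + 1 := ⟨M - 1, by omega⟩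
    rw [Nat.add_sub_cancel, pow_succ']
    have h5 : 1 ≤ N ^ k := Nat.one_le_pow _ _ hN
    calc Ψ.totalDegree * N ^ k + 1 ≤ Ψ.totalDegree * N ^ k + N ^ k := by omega
      _ = (Ψ.totalDegree + 1) * N ^ k := by ring
      _ ≤ N * N ^ k := Nat.mul_le_mul_right _ (by omega)

/-- the values do not vanish modulo large primes -/
theorem eventually_ne_zero_mod (ν : α → ℕ) (hν : Function.Injective ν) (M : ℕ)
    (hM : ∀ i, ν i < M) (Ψ : MvPolynomial α ℤ) (hΨ : Ψ ≠ 0) :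
    ∀ᶠ N : ℕ in atTop, ∀ p : Nat.Primes, N ^ N ^ M < p →
      aeval (fun i => ((pt ν N i : ℤ) : Fbar p)) Ψ ≠ 0 := by
  filter_upwards [eventually_ne_zero ν hν Ψ hΨ, eventually_lt ν M hM Ψ] with N h1 h2 p hp h3
  have h4 : aeval (fun i => ((pt ν N i : ℤ) : Fbar p)) Ψ = ((eval (pt ν N) Ψ : ℤ) : Fbar p) := by
    have := MvPolynomial.aeval_algebraMap_apply (Fbar p) (pt ν N) Ψ
    simpa [Function.comp_def] using this
  rw [h4, CharP.intCast_eq_zero_iff (Fbar p) p] at h3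
  refine h1 (Int.eq_zero_of_abs_lt_dvd h3 (h2.trans_le ?_))
  exact_mod_cast hp.le

theorem eventually_ne_zero_field (ν : α → ℕ) (hν : Function.Injective ν) (Ψ : MvPolynomial α ℤ)
    (hΨ : Ψ ≠ 0) (K : Type) [Field K] [CharZero K] :
    ∀ᶠ N : ℕ in atTop, aeval (fun i => ((pt ν N i : ℤ) : K)) Ψ ≠ 0 := by
  filter_upwards [eventually_ne_zero ν hν Ψ hΨ] with N h1 h3
  have h4 : aeval (fun i => ((pt ν N i : ℤ) : K)) Ψ = ((eval (pt ν N) Ψ : ℤ) : K) := by
    have := MvPolynomial.aeval_algebraMap_apply K (pt ν N) Ψ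
    simpa [Function.comp_def] using this
  rw [h4] at h3
  exact h1 (by exact_mod_cast h3)

end Pool.Agent.H854.CU
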