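import Pool.Graph.R_pool_sql_team_seeded_3997aac3.Results.MP_2619d0_ag.FiniteFieldCriterion
import Pool.Agent.H854.CU.Pow
import Pool.Agent.H854.CU.Exp

/-!
# Smoothness of generic forms, and the numbering of the monomials
-/

set_option autoImplicit false

namespace Pool.Agent.H854.CU

open MvPolynomial Filter Pool.Agent.Q26.FO

/-- `∂ F / ∂ x_i` at the point `x`, as a polynomial in the coefficients of `F` and in `x` -/
noncomputable def genericPartial (r d : ℕ) (i : Fin r) : MvPolynomial (Idx r d ⊕ Fin r) ℤ :=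
  ∑ m : Idx r d, X (Sum.inl m) *
    aeval (fun j => (X (Sum.inr j) : MvPolynomial (Idx r d ⊕ Fin r) ℤ))
      (pderiv i (monomial m.1 (1 : ℤ)))

theorem aeval_genericPartial {r d : ℕ} (i : Fin r) {K : Type} [Field K] (c : Idx r d → K)
    (x : Fin r → K) : aeval (Sum.elim c x) (genericPartial r d i) =
      eval x (pderiv i (form c)) := by
  rw [pderiv_form, genericPartial, map_sum]
  refine Finset.sum_congr rfl fun m _ => ?_
  rw [map_mul, aeval_X, Sum.elim_inl]
  congr 1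
  rw [← AlgHom.comp_apply, comp_aeval]
  simp only [aeval_X, Sum.elim_inr]
  rw [pderiv_monomial, pderiv_monomial, aeval_monomial, eval_monomial]
  simp [Finsupp.prod]

theorem isFirstOrder_isSmooth (r d : ℕ) :
    IsFirstOrder (fun K _ (c : Idx r d → K) => IsSmooth (form c)) := by
  have h1 : IsFirstOrder (fun K _ (z : Idx r d ⊕ Fin r → K) =>
      (∀ i, aeval z (genericPartial r d i) = 0) ∧
        ¬ ∀ i, aeval z (X (Sum.inr i) : MvPolynomial (Idx r d ⊕ Fin r) ℤ) = 0) :=
    (isFirstOrder_forall _ fun i => isFirstOrder_eval _).and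
      (isFirstOrder_forall _ fun i => isFirstOrder_eval _).not
  refine h1.ex.not.congr fun K _ _ c => ?_
  simp only [aeval_genericPartial, aeval_X, Sum.elim_inr]
  constructor
  · intro h x hx
    by_contra h0
    exact h ⟨x, hx, fun h2 => h0 (funext h2)⟩
  · rintro h ⟨x, hx, h0⟩
    exact h0 fun i => congrFun (h x hx) i

theorem isSmooth_of_algebraicIndependent (r d : ℕ) (c : Idx r (d + 2) → ℂ)
    (hc : AlgebraicIndependent ℤ c) : IsSmooth (form c) := by
  have hne : ∀ Ψ : MvPolynomial (Idx r (d + 2)) ℤ, Ψ ≠ 0 → aeval c Ψ ≠ 0 := fun Ψ hΨ h0 =>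
    hΨ (algebraicIndependent_iff.1 hc Ψ h0)
  rcases (isFirstOrder_isSmooth r (d + 2)).dichotomy with ⟨Ψ, hΨ, h⟩ | ⟨Ψ, hΨ, h⟩
  · exact h c (hne Ψ hΨ)
  · exfalso
    obtain ⟨b, hb, hb'⟩ := exists_eval_ne_zero (charZero_map_ne_zero ℂ Ψ hΨ)
      (isOpen_isSmooth r (d + 1)) (exists_isSmooth r d)
    refine h b ?_ hb
    rw [aeval_eq_eval_map]
    exact hb'

/-- the number of a monomial: `m ↦ ∑ m_j 4 ^ j` -/
def num {r : ℕ} (m : Fin r →₀ ℕ) : ℕ := ∑ j, m j * 4 ^ (j : ℕ)

theorem le_three {r : ℕ} (m : Idx r 3) (j : Fin r) : m.1 j ≤ 3 := by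
  have h1 := (mem_idx m.1).1 m.2
  rw [Finsupp.degree_eq_sum] at h1
  refine le_trans ?_ h1.le
  exact Finset.single_le_sum (f := fun j => m.1 j) (fun _ _ => Nat.zero_le _) (Finset.mem_univ j)

theorem num_injective (r : ℕ) : Function.Injective (fun m : Idx r 3 => num m.1) := by
  intro a b hab
  have h1 : ∑ j : Fin r, ((a.1 j : ℤ) - b.1 j) * ((4 : ℕ) : ℤ) ^ (j : ℕ) = 0 := by
    have h2 : ((num a.1 : ℕ) : ℤ) = ((num b.1 : ℕ) : ℤ) := by exact_mod_cast hab
    unfold num at h2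
    push_cast at h2 ⊢
    simp only [sub_mul, Finset.sum_sub_distrib]
    rw [h2, sub_self]
  have h2 := digits_zero Finset.univ (fun j : Fin r => (j : ℕ)) (fun x _ y _ h => Fin.ext h)
    (fun j => (a.1 j : ℤ) - b.1 j) 4 (fun j _ => by
      have h3 := le_three a j
      have h4 := le_three b j
      rw [abs_lt]
      constructor <;> push_cast <;> omega) h1
  apply Subtype.ext
  ext j
  have h3 := h2 j (Finset.mem_univ j)
  omega

theorem num_lt (n : ℕ) (m : Idx (n + 2) 3) : num m.1 < 4 ^ (n + 2) := by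
  have h1 := (mem_idx m.1).1 m.2
  rw [Finsupp.degree_eq_sum] at h1
  have h2 : num m.1 ≤ ∑ j, m.1 j * 4 ^ (n + 1) := by
    refine Finset.sum_le_sum fun j _ => Nat.mul_le_mul_left _ (Nat.pow_le_pow_right (by norm_num) ?_)
    have := j.2
    omega
  rw [← Finset.sum_mul, h1] at h2
  refine lt_of_le_of_lt h2 ?_
  rw [pow_succ 4 (n + 1)]
  have : 0 < 4 ^ (n + 1) := by positivity
  omega

/-- the complex cubic form in `n + 2` variables with the coefficients `exp (2 ^ (ν / 4 ^ (n + 2)))`,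
where `ν` is the number of the monomial -/
noncomputable def expCubic (n : ℕ) : MvPolynomial (Fin (n + 2)) ℂ :=
  form (d := 3) fun m =>
    Complex.exp (((2 : ℝ) ^ ((num m.1 : ℝ) / 4 ^ (n + 2)) : ℝ) : ℂ)

/-- the cubic form in `n + 2` variables over `R` with the coefficients `N ^ N ^ ν`, where `ν` is the
number of the monomial -/
noncomputable def intCubic (n N : ℕ) (R : Type) [CommRing R] : MvPolynomial (Fin (n + 2)) R :=
  form (d := 3) fun m => (N : R) ^ N ^ num m.1

theorem algebraicIndependent_coeff (n : ℕ) :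
    AlgebraicIndependent ℤ (fun m : Idx (n + 2) 3 =>
      Complex.exp (((2 : ℝ) ^ ((num m.1 : ℝ) / 4 ^ (n + 2)) : ℝ) : ℂ)) := by
  let θ : ℝ := (2 : ℝ) ^ ((1 : ℝ) / 4 ^ (n + 2))
  have h1 : ∀ k : ℕ, (2 : ℝ) ^ ((k : ℝ) / 4 ^ (n + 2)) = θ ^ k := by
    intro k
    rw [← Real.rpow_natCast θ k, ← Real.rpow_mul (by norm_num)]
    congr 1
    ring
  have h2 : ((θ : ℝ) : ℂ) ^ 4 ^ (n + 2) = 2 := by
    have h3 : θ ^ 4 ^ (n + 2) = 2 := by
      rw [← h1]
      push_cast
      rw [div_self (by positivity), Real.rpow_one]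
    exact_mod_cast congrArg (fun x : ℝ => (x : ℂ)) h3
  have h3 := algebraicIndependent_exp (4 ^ (n + 2)) (θ : ℂ) h2
    (fun m : Idx (n + 2) 3 => num m.1) (num_injective (n + 2)) (num_lt n)
  convert h3 using 3 with m
  rw [h1]
  push_cast
  rfl

end Pool.Agent.H854.CU
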